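import Pool.Agent.U581.LB.StmQ

/-!
# Package SLU of the project LQ: a theorem of Slutsky on the space of continuous functions
-/

set_option autoImplicit false

namespace Pool.Agent.U653.LB

open Real MeasureTheory Filter Topology ProbabilityTheory
open scoped BoundedContinuousFunction NNReal

section

variable [MeasurableSpace C(unitInterval, ℝ)] [BorelSpace C(unitInterval, ℝ)]

theorem slu_aux (ν : ℕ → Measure ℝ) (X X' : ℕ → ℝ → C(unitInterval, ℝ)) {Ω : Type} [MeasurableSpace Ω]
    (P : Measure Ω) [IsProbabilityMeasure P] (Z : Ω → C(unitInterval, ℝ))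
    [∀ j, IsProbabilityMeasure (ν j)] (hX : ∀ j, Measurable (X j)) (hX' : ∀ j, Measurable (X' j))
    (hZ : AEMeasurable Z P)
    (h1 : ∀ F : C(unitInterval, ℝ) →ᵇ ℝ,
      Tendsto (fun j => ∫ x, F (X' j x) ∂ν j) atTop (𝓝 (∫ ω, F (Z ω) ∂P)))
    (h2 : ∀ ε : ℝ, 0 < ε → Tendsto (fun j => (ν j).real {x | ε < ‖X j x - X' j x‖}) atTop (𝓝 0))
    (F : C(unitInterval, ℝ) →ᵇ ℝ) :
    Tendsto (fun j => ∫ x, F (X j x) ∂ν j) atTop (𝓝 (∫ ω, F (Z ω) ∂P)) := by
  have hXa : ∀ j, AEMeasurable (X j) (ν j) := fun j => (hX j).aemeasurable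
  let μ : ℕ → ProbabilityMeasure C(unitInterval, ℝ) := fun j =>
    ⟨(ν j).map (X j), Measure.isProbabilityMeasure_map (hXa j)⟩
  let μ₀ : ProbabilityMeasure C(unitInterval, ℝ) :=
    ⟨P.map Z, Measure.isProbabilityMeasure_map hZ⟩
  have hconv : Tendsto μ atTop (𝓝 μ₀) := by
    rw [tendsto_iff_forall_lipschitz_integral_tendsto]
    rintro f ⟨C, hC⟩ ⟨L, hL⟩
    have hfc := hL.continuous
    -- the bounded continuous function
    let Fb : C(unitInterval, ℝ) →ᵇ ℝ := ⟨⟨f, hfc⟩, ⟨C, hC⟩⟩
    have e1 : ∀ j, ∫ z, f z ∂(μ j : Measure _) = ∫ x, f (X j x) ∂ν j := fun j =>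
      integral_map (hXa j) hfc.aestronglyMeasurable
    have e2 : ∫ z, f z ∂(μ₀ : Measure _) = ∫ ω, f (Z ω) ∂P :=
      integral_map hZ hfc.aestronglyMeasurable
    simp_rw [e1]
    rw [e2]
    obtain ⟨B, hB⟩ : ∃ B : ℝ, B = ‖Fb‖ := ⟨_, rfl⟩
    have hB0 : 0 ≤ B := by rw [hB]; exact norm_nonneg _
    have hfB : ∀ z, ‖f z‖ ≤ B := fun z => by rw [hB]; exact Fb.norm_coe_le_norm z
    rw [Metric.tendsto_atTop]
    intro η hη
    obtain ⟨ε, hε, hεL⟩ : ∃ ε : ℝ, 0 < ε ∧ L * ε ≤ η / 8 := by
      refine ⟨η / (8 * (L + 1)), by positivity, ?_⟩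
      rw [mul_div_assoc', div_le_div_iff₀ (by positivity) (by positivity)]
      have : (0 : ℝ) ≤ L := L.2
      nlinarith
    have h4 := h2 ε hε
    rw [Metric.tendsto_atTop] at h4
    have h5 := h1 Fb
    rw [Metric.tendsto_atTop] at h5
    obtain ⟨j1, hj1⟩ := h5 (η / 4) (by positivity)
    obtain ⟨j2, hj2⟩ := h4 (η / (16 * (B + 1))) (by positivity)
    refine ⟨max j1 j2, fun j hj => ?_⟩
    have h6 := hj1 j ((le_max_left _ _).trans hj)
    have h7' := hj2 j ((le_max_right _ _).trans hj)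
    have h7 : (ν j).real {x | ε < ‖X j x - X' j x‖} ≤ η / (16 * (B + 1)) := by
      rw [Real.dist_eq, sub_zero] at h7'
      exact (le_abs_self _).trans h7'.le
    have h8 : |(∫ x, f (X j x) ∂ν j) - ∫ x, f (X' j x) ∂ν j| ≤ η / 4 := by
      have i1 : Integrable (fun x => f (X j x)) (ν j) :=
        Integrable.of_bound (hfc.measurable.comp (hX j)).aestronglyMeasurable B
          (Eventually.of_forall fun x => hfB _)
      have i2 : Integrable (fun x => f (X' j x)) (ν j) :=
        Integrable.of_bound (hfc.measurable.comp (hX' j)).aestronglyMeasurable B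
          (Eventually.of_forall fun x => hfB _)
      rw [← integral_sub i1 i2]
      have hmS : MeasurableSet {x | ε < ‖X j x - X' j x‖} :=
        measurableSet_lt measurable_const ((hX j).sub (hX' j)).norm
      have hbound : ∀ x, |f (X j x) - f (X' j x)| ≤ L * ε +
          Set.indicator {x | ε < ‖X j x - X' j x‖} (fun _ => 2 * B) x := by
        intro x
        by_cases hx : x ∈ {x | ε < ‖X j x - X' j x‖}
        · rw [Set.indicator_of_mem hx]
          have q1 := hfB (X j x)
          have q2 := hfB (X' j x)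
          rw [Real.norm_eq_abs] at q1 q2
          have q3 : (0 : ℝ) ≤ L * ε := by positivity
          refine (abs_sub _ _).trans ?_
          linarith
        · rw [Set.indicator_of_notMem hx, add_zero]
          have hx' : ‖X j x - X' j x‖ ≤ ε := not_lt.1 hx
          have q1 := hL.dist_le_mul (X j x) (X' j x)
          rw [Real.dist_eq, dist_eq_norm] at q1
          exact q1.trans (mul_le_mul_of_nonneg_left hx' L.2)
      have hint : Integrable (fun x => L * ε +
          Set.indicator {x | ε < ‖X j x - X' j x‖} (fun _ => 2 * B) x) (ν j) :=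
        (integrable_const _).add ((integrable_const _).indicator hmS)
      calc |∫ x, (f (X j x) - f (X' j x)) ∂ν j|
          ≤ ∫ x, |f (X j x) - f (X' j x)| ∂ν j := abs_integral_le_integral_abs
        _ ≤ ∫ x, (L * ε + Set.indicator {x | ε < ‖X j x - X' j x‖}
            (fun _ => 2 * B) x) ∂ν j := integral_mono (i1.sub i2).abs hint hbound
        _ = L * ε + (ν j).real {x | ε < ‖X j x - X' j x‖} * (2 * B) := by
            rw [integral_add (integrable_const _) ((integrable_const _).indicator hmS),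
              integral_indicator_const _ hmS]
            simp
        _ ≤ η / 8 + (η / (16 * (B + 1))) * (2 * B) := by gcongr
        _ ≤ η / 8 + η / 8 := by
            gcongr
            rw [div_mul_eq_mul_div, div_le_div_iff₀ (by positivity) (by positivity)]
            nlinarith
        _ = η / 4 := by ring
    have h6' : |(∫ x, f (X' j x) ∂ν j) - ∫ ω, f (Z ω) ∂P| < η / 4 := by
      rw [← Real.dist_eq]
      exact h6
    rw [Real.dist_eq]
    have e3 : (∫ x, f (X j x) ∂ν j) - ∫ ω, f (Z ω) ∂P =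
      ((∫ x, f (X j x) ∂ν j) - ∫ x, f (X' j x) ∂ν j) +
      ((∫ x, f (X' j x) ∂ν j) - ∫ ω, f (Z ω) ∂P) := by ring
    rw [e3]
    have t2 := abs_add_le ((∫ x, f (X j x) ∂ν j) - ∫ x, f (X' j x) ∂ν j)
      ((∫ x, f (X' j x) ∂ν j) - ∫ ω, f (Z ω) ∂P)
    linarith
  rw [ProbabilityMeasure.tendsto_iff_forall_integral_tendsto] at hconv
  have h3 := hconv F
  have e1 : ∀ j, ∫ z, F z ∂(μ j : Measure _) = ∫ x, F (X j x) ∂ν j := fun j =>
    integral_map (hXa j) F.continuous.aestronglyMeasurable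
  have e2 : ∫ z, F z ∂(μ₀ : Measure _) = ∫ ω, F (Z ω) ∂P :=
    integral_map hZ F.continuous.aestronglyMeasurable
  simp_rw [e1] at h3
  rwa [e2] at h3

end

/-- package SLU -/
theorem t_SLU : Pool.Agent.U581.LB.S_SLU := by
  intro _ _ ν X X' Ω _ P _ Z hν hX hX' hZ h1 h2 F
  haveI := hν
  exact slu_aux ν X X' P Z hX hX' hZ h1 h2 F

end Pool.Agent.U653.LB
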